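import Pool.Agent.helper44.EX.Spec

/-!
# Project ex, module NCL
-/

set_option autoImplicit false

open Complex Metric Set Filter Topology MeasureTheory Pool.Agent.helper98.ILF

noncomputable section

namespace EX

theorem NCL (hMOB : MOB_stmt) : NCL_stmt := by
  intro n c δ φ U R1 R x a T k G hVD hR1 hR1R hR hStar hTk ha hG hG0 hGf
  by_contra hcon
  push Not at hcon
  obtain ⟨-, hd, hm, hinj, -, htau, -, -, -⟩ := hMOB a ha
  have hRpos : 0 < R := hR1.trans hR1R
  have hR0 : (R : ℂ) ≠ 0 := by exact_mod_cast hRpos.ne'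
  have hmapR : MapsTo (fun z : ℂ => (R : ℂ) * z) (ball 0 1) (ball 0 R) := by
    intro z hz
    rw [mem_ball_zero_iff] at hz ⊢
    rw [norm_mul, Complex.norm_real, Real.norm_eq_abs, abs_of_pos hRpos]
    nlinarith
  have hR1b : ball (0 : ℂ) R ⊆ ball 0 1 := ball_subset_ball hR.le
  have hmap1 : MapsTo (fun z : ℂ => (R : ℂ) * z) (ball 0 1) (ball 0 1) :=
    fun z hz => hR1b (hmapR hz)
  have hlin : DifferentiableOn ℂ (fun z : ℂ => (R : ℂ) * z) (ball 0 1) :=
    (differentiable_id.const_mul (R : ℂ)).differentiableOn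
  refine hStar k hTk (fun z => φ (tau a ((R : ℂ) * z))) (fun z => G ((R : ℂ) * z)) (-a / R)
    ?_ ?_ ?_ ?_ ?_ ?_ ?_
  · exact hVD.hol.comp (hd.comp hlin hmap1) (hm.comp hmap1)
  · intro z hz w hw hzw
    have h1 := hVD.inj (hm (hmap1 hz)) (hm (hmap1 hw)) hzw
    have h2 := hinj (hmap1 hz) (hmap1 hw) h1
    exact mul_left_cancel₀ hR0 h2
  · exact hG.comp hlin hmapR
  · intro z hz
    exact hGf _ (hmapR hz)
  · simp only [mul_zero]
    exact hG0
  · rw [norm_div, norm_neg, Complex.norm_real, Real.norm_eq_abs, abs_of_pos hRpos]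
    exact div_le_div_of_nonneg_right hcon hRpos.le
  · have h3 : (R : ℂ) * (-a / R) = -a := by field_simp
    show φ (tau a ((R : ℂ) * (-a / R))) = 0
    rw [h3, htau]
    exact hVD.zero

end EX
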